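import Pool.Agent.H95.HOL.Alg
import Pool.Agent.H2.GEN.AttF

/-!
# Closed equations on the natural box and the curvature

`rel_all`: finitely many closed polynomials which are small at the samples are small on the natural
box, off a small event. `hol_det`: if `e Γ - μ` and `e' Γ - μ'` are small on the natural box and the
fields are natural, then the derivative of `Γ` in the direction `u` times the curvature of the fields is
near the curvature of `μ`, `μ'`. `hol_ev`: the event.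
-/

set_option autoImplicit false

namespace Pool.HOL95

open Finset Real MvPolynomial
open Pool.Agent.H49.Ent Pool.Agent.H32.Dense Pool.STK Pool.KA Pool.KSAT Pool.K2S Pool.PB Pool.S6C
open Pool.GEN Pool.CHT Pool.D2R

variable {m J : ℕ}

/-- **Small at the samples, small on the boxes.** -/
theorem rel_all {F : Fam m J} {c : ℕ → Fin m} {i a w : ℕ} {g : ℕ → ℕ} {D h : ℕ} {κ : ℝ}
    {B : F.Ω → Prop} {G : PtT F → ℕ → MvPolynomial (Option (Fin m)) ℝ}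
    (R : RelvF F c i a w g D h κ B G) (hκ : 0 ≤ κ) {n : ℕ}
    (Pv : ℕ → PtT F → MvPolynomial (Option (Fin m)) ℝ)
    (Pl : ℕ → LnT F → MvPolynomial (Option (Fin m)) ℝ) (M : ℕ → ℝ)
    (hdv : ∀ j < n, ∀ y, (Pv j y).totalDegree ≤ D) (hdl : ∀ j < n, ∀ s, (Pl j s).totalDegree ≤ D)
    (hcv : ∀ j < n, ∀ y, DepC c i (Pv j y)) (hcl : ∀ j < n, ∀ s, DepC c i (Pl j s))
    (hM : ∀ j < n, 0 < M j)
    (hs : ∀ j < n, ∀ ω, B ω → |eval (bt F ω) (Pv j (ptr F J ω))| ≤ M j)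
    (hn : ∀ j < n, ∀ ω, B ω → ∀ b, NBx c (G (ptr F J ω)) g a (F.t ω) i b →
      |eval b (Pv j (ptr F J ω)) - eval b (Pl j (slam F w ω))| ≤ M j) :
    Pe F.p (fun ω => B ω ∧ ¬ ∀ j < n, ∀ b, NBx c (G (ptr F J ω)) g a (F.t ω) i b →
      |eval b (Pv j (ptr F J ω))| ≤ 2 ^ h * M j) ≤ 2 ^ n * κ * Pe F.p B := by
  classical
  have p0 : ∀ ω, 0 ≤ F.p ω := F.isLaw.nonneg
  have hB0 : 0 ≤ Pe F.p B := law_nonneg p0 _ _
  by_contra hcon0
  have hcon := not_le.1 hcon0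
  obtain ⟨E, hE⟩ : ∃ E : F.Ω → Prop, E = fun ω => B ω ∧ ¬ ∀ j < n, ∀ b,
      NBx c (G (ptr F J ω)) g a (F.t ω) i b →
      |eval b (Pv j (ptr F J ω))| ≤ 2 ^ h * M j := ⟨_, rfl⟩
  rw [← hE] at hcon
  have hEB : Sub E B := fun ω hω => by
    rw [hE] at hω
    exact hω.1
  have hind : ∀ k ≤ n, ∃ E' : F.Ω → Prop, Sub E' E ∧ Pe F.p E / 2 ^ k ≤ Pe F.p E' ∧
      ∀ j < k, ∀ ω, E' ω → ∀ b, NBx c (G (ptr F J ω)) g a (F.t ω) i b →
      |eval b (Pv j (ptr F J ω))| ≤ 2 ^ h * M j := by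
    intro k
    induction k with
    | zero =>
      intro _
      exact ⟨E, fun ω hω => hω, by rw [pow_zero, div_one], fun j hj => absurd hj (Nat.not_lt_zero j)⟩
    | succ k ih =>
      intro hk
      obtain ⟨E', h1, h2, h3⟩ := ih (by omega)
      have hkn : k < n := by omega
      have h4 : κ * Pe F.p B ≤ Pe F.p E' := by
        refine le_trans ?_ h2
        rw [le_div_iff₀ (by positivity)]
        have h5 : (2 : ℝ) ^ k ≤ 2 ^ n := pow_le_pow_right₀ (by norm_num) (by omega)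
        have h6 : κ * Pe F.p B * 2 ^ k ≤ κ * Pe F.p B * 2 ^ n :=
          mul_le_mul_of_nonneg_left h5 (mul_nonneg hκ hB0)
        linarith
      obtain ⟨E'', e1, e2, e3⟩ := R E' (fun ω hω => hEB ω (h1 ω hω)) h4 (Pv k) (Pl k) (M k)
        (hdv k hkn) (hdl k hkn) (hcv k hkn) (hcl k hkn) (hM k hkn)
        (fun ω hω => hs k hkn ω (hEB ω (h1 ω hω)))
        (fun ω hω => hn k hkn ω (hEB ω (h1 ω hω)))
      refine ⟨E'', fun ω hω => h1 ω (e1 ω hω), ?_, ?_⟩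
      · have h5 : Pe F.p E / 2 ^ (k + 1) = Pe F.p E / 2 ^ k / 2 := by
          rw [pow_succ, div_div]
        rw [h5]
        linarith
      · intro j hj ω hω
        rcases Nat.lt_succ_iff_lt_or_eq.1 hj with h5 | h5
        · exact h3 j h5 ω (e1 ω hω)
        · rw [h5]
          exact e3 ω hω
  obtain ⟨E', h1, h2, h3⟩ := hind n le_rfl
  have h4 : 0 < Pe F.p E' := by
    refine lt_of_lt_of_le ?_ h2
    have h5 : 0 ≤ 2 ^ n * κ * Pe F.p B := by positivity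
    have h6 : 0 < Pe F.p E := lt_of_le_of_lt h5 hcon
    positivity
  obtain ⟨ω, hω⟩ : ∃ ω, E' ω := by
    by_contra hno
    push Not at hno
    have : Pe F.p E' = 0 := by
      unfold Pe law
      refine Finset.sum_eq_zero fun ω _ => if_neg ?_
      rw [eq_iff_iff]
      exact fun hh => hno ω (hh.2 trivial)
    linarith
  have h5 := h1 ω hω
  rw [hE] at h5
  exact h5.2 fun j hj => h3 j hj ω hω

/-- **The curvature.** -/
theorem hol_det (r K D : ℕ) : ∃ C : ℝ, 1 ≤ C ∧ ∀ {m : ℕ} {c : ℕ → Fin m}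
    {ψ : ℕ → MvPolynomial (Option (Fin m)) ℝ} {g : ℕ → ℕ} {a : ℕ} {M M' lam lam' : ℝ}
    {x : Option (Fin m) → ℝ} (e e' : Option (Fin m) → MvPolynomial (Option (Fin m)) ℝ)
    (u : Option (Fin m)) (Γ μ μ' : MvPolynomial (Option (Fin m)) ℝ), Set.InjOn c (Set.Iio r) →
    (∀ l, (ψ l).totalDegree ≤ K) → (∀ l, DepC c l (ψ l)) →
    DepC c r (vf e Γ - μ) → (vf e Γ - μ).totalDegree ≤ D →
    DepC c r (vf e' Γ - μ') → (vf e' Γ - μ').totalDegree ≤ D →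
    0 ≤ M → 0 ≤ M' → 0 < lam → 0 < lam' →
    (∀ b, NBx c ψ g a (x none) r b → |eval b (vf e Γ - μ)| ≤ M) →
    (∀ b, NBx c ψ g a (x none) r b → |eval b (vf e' Γ - μ')| ≤ M') →
    (∀ l < r, |x (some (c l)) - eval x (ψ l)| ≤ 1 / 2 ^ g l) →
    (lam * |eval x (e none)| ≤ 1 / 2 ^ a ∧ ∀ l < r, lam * |eval x (e (some (c l))) -
      dd (ψ l) x (fun o => eval x (e o))| ≤ 1 / 2 ^ g l) →
    (lam' * |eval x (e' none)| ≤ 1 / 2 ^ a ∧ ∀ l < r, lam' * |eval x (e' (some (c l))) -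
      dd (ψ l) x (fun o => eval x (e' o))| ≤ 1 / 2 ^ g l) →
    (∀ o, o ≠ u → vf e (e' o) = vf e' (e o)) →
    |eval x (pderiv u Γ) * (eval x (vf e (e' u)) - eval x (vf e' (e u))) -
      (eval x (vf e μ') - eval x (vf e' μ))| ≤ C * (M' / lam + M / lam') := by
  obtain ⟨C, hC, hb⟩ := box_nat r K D
  refine ⟨C, hC, ?_⟩
  intro m c ψ g a M M' lam lam' x e e' u Γ μ μ' hc hψ hdep hP1 hP2 hP1' hP2' hM hM' hl hl' hbx hbx'
    hx he he' hbr
  have key : ∀ (f : Option (Fin m) → MvPolynomial (Option (Fin m)) ℝ)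
      (Q : MvPolynomial (Option (Fin m)) ℝ) (N lm : ℝ), DepC c r Q → Q.totalDegree ≤ D → 0 ≤ N →
      0 < lm → (∀ b, NBx c ψ g a (x none) r b → |eval b Q| ≤ N) →
      (lm * |eval x (f none)| ≤ 1 / 2 ^ a ∧ ∀ l < r, lm * |eval x (f (some (c l))) -
        dd (ψ l) x (fun o => eval x (f o))| ≤ 1 / 2 ^ g l) →
      |eval x (vf f Q)| ≤ C * (N / lm) := by
    intro f Q N lm q1 q2 hN hlm q3 q4
    have h1 := (hb hc hψ hdep q1 q2 hN q3 hx (lm • fun o => eval x (f o)) (by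
      rw [Pi.smul_apply, smul_eq_mul, abs_mul, abs_of_pos hlm]
      exact q4.1) (fun l hl => by
      rw [dd_smul, Pi.smul_apply, smul_eq_mul, ← mul_sub, abs_mul, abs_of_pos hlm]
      exact q4.2 l hl)).1
    rw [dd_smul, abs_mul, abs_of_pos hlm] at h1
    rw [vf_eval, mul_div_assoc', le_div_iff₀ hlm]
    linarith
  have k1 := key e (vf e' Γ - μ') M' lam hP1' hP2' hM' hl hbx' he
  have k2 := key e' (vf e Γ - μ) M lam' hP1 hP2 hM hl' hbx he'
  have h1 := congrArg (eval x) (hol_alg e e' u hbr Γ μ μ')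
  rw [map_sub, map_sub, map_mul, map_sub, map_sub] at h1
  rw [← h1]
  have h2 := abs_sub (eval x (vf e (vf e' Γ - μ'))) (eval x (vf e' (vf e Γ - μ)))
  rw [mul_add]
  linarith

/-- **The curvature, event form.** -/
theorem hol_ev (r K D : ℕ) : ∃ C : ℝ, 1 ≤ C ∧ ∀ {m J : ℕ} {F : Fam m J} {c : ℕ → Fin m}
    {a w : ℕ} {g : ℕ → ℕ} {h : ℕ} {κ : ℝ} {B : F.Ω → Prop}
    {G : PtT F → ℕ → MvPolynomial (Option (Fin m)) ℝ}
    (_ : RelvF F c r a w g D h κ B G) (_ : 0 ≤ κ) (_ : Set.InjOn c (Set.Iio r))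
    (_ : ∀ y l, (G y l).totalDegree ≤ K) (_ : ∀ y l, DepC c l (G y l))
    (_ : ∀ ω, B ω → ∀ l < r, |F.x ω (c l) - eval (bt F ω) (G (ptr F J ω) l)| ≤ 1 / 2 ^ g l)
    {n : ℕ} (e : ℕ → PtT F → Option (Fin m) → MvPolynomial (Option (Fin m)) ℝ)
    (u : Option (Fin m)) (Γ : PtT F → MvPolynomial (Option (Fin m)) ℝ)
    (μ : ℕ → PtT F → MvPolynomial (Option (Fin m)) ℝ)
    (Pl : ℕ → LnT F → MvPolynomial (Option (Fin m)) ℝ) (M lam : ℕ → ℝ)
    (_ : ∀ j < n, ∀ y, (vf (e j y) (Γ y) - μ j y).totalDegree ≤ D)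
    (_ : ∀ j < n, ∀ y, DepC c r (vf (e j y) (Γ y) - μ j y))
    (_ : ∀ j < n, ∀ s, (Pl j s).totalDegree ≤ D) (_ : ∀ j < n, ∀ s, DepC c r (Pl j s))
    (_ : ∀ j < n, 0 < M j) (_ : ∀ j < n, 0 < lam j)
    (_ : ∀ j < n, ∀ ω, B ω →
      |eval (bt F ω) (vf (e j (ptr F J ω)) (Γ (ptr F J ω)) - μ j (ptr F J ω))| ≤ M j)
    (_ : ∀ j < n, ∀ ω, B ω → ∀ b, NBx c (G (ptr F J ω)) g a (F.t ω) r b →
      |eval b (vf (e j (ptr F J ω)) (Γ (ptr F J ω)) - μ j (ptr F J ω)) -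
        eval b (Pl j (slam F w ω))| ≤ M j)
    (_ : ∀ j < n, ∀ ω, B ω → lam j * |eval (bt F ω) (e j (ptr F J ω) none)| ≤ 1 / 2 ^ a ∧
      ∀ l < r, lam j * |eval (bt F ω) (e j (ptr F J ω) (some (c l))) -
        dd (G (ptr F J ω) l) (bt F ω) (fun o => eval (bt F ω) (e j (ptr F J ω) o))| ≤ 1 / 2 ^ g l)
    (_ : ∀ j < n, ∀ j' < n, ∀ y o, o ≠ u → vf (e j y) (e j' y o) = vf (e j' y) (e j y o)),
    Pe F.p (fun ω => B ω ∧ ¬ ∀ j < n, ∀ j' < n,
      |eval (bt F ω) (pderiv u (Γ (ptr F J ω))) *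
        (eval (bt F ω) (vf (e j (ptr F J ω)) (e j' (ptr F J ω) u)) -
          eval (bt F ω) (vf (e j' (ptr F J ω)) (e j (ptr F J ω) u))) -
        (eval (bt F ω) (vf (e j (ptr F J ω)) (μ j' (ptr F J ω))) -
          eval (bt F ω) (vf (e j' (ptr F J ω)) (μ j (ptr F J ω))))| ≤
        C * 2 ^ h * (M j' / lam j + M j / lam j')) ≤ 2 ^ n * κ * Pe F.p B := by
  obtain ⟨C, hC, hdet⟩ := hol_det r K D
  refine ⟨C, hC, ?_⟩
  intro m J F c a w g h κ B G R hκ hc hG hGd hx n e u Γ μ Pl M lam hd hdep hdl hdepl hM hlam hs hn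
    he hbr
  have h1 := rel_all R hκ (n := n) (fun j y => vf (e j y) (Γ y) - μ j y) Pl M hd hdl hdep hdepl hM
    hs hn
  refine (Pe_mono F.isLaw fun ω hω => ?_).trans h1
  refine ⟨hω.1, fun hall => hω.2 fun j hj j' hj' => ?_⟩
  have hB := hω.1
  have h2 := hdet (ψ := G (ptr F J ω)) (g := g) (a := a) (M := 2 ^ h * M j) (M' := 2 ^ h * M j')
    (lam := lam j) (lam' := lam j') (x := bt F ω) (e j (ptr F J ω)) (e j' (ptr F J ω)) u
    (Γ (ptr F J ω)) (μ j (ptr F J ω)) (μ j' (ptr F J ω)) hc (hG _) (hGd _) (hdep j hj _)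
    (hd j hj _) (hdep j' hj' _) (hd j' hj' _) (by have := hM j hj; positivity)
    (by have := hM j' hj'; positivity) (hlam j hj) (hlam j' hj') (hall j hj) (hall j' hj')
    (hx ω hB) (he j hj ω hB) (he j' hj' ω hB) (hbr j hj j' hj' _)
  refine h2.trans (le_of_eq ?_)
  ring

end Pool.HOL95
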