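import Pool.Agent.H23.D2.Nat

/-!
# Two vector fields with a vertical bracket

`vf e f`: the derivative of the polynomial `f` along the polynomial vector field `e`. `vf_brk`: the bracket
of two fields. `hol_alg`: if the bracket of `e` and `e'` has only the component `u`, then the
derivatives of `P = e Γ - μ` and `P' = e' Γ - μ'` give the product of the derivative of `Γ` in the
direction `u` and the curvature.
-/

set_option autoImplicit false

namespace Pool.HOL95

open Finset Real MvPolynomial
open Pool.GEN Pool.CHT Pool.D2R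

variable {m : ℕ}

/-- The derivative along a polynomial vector field. -/
noncomputable def vf (e : Option (Fin m) → MvPolynomial (Option (Fin m)) ℝ)
    (f : MvPolynomial (Option (Fin m)) ℝ) : MvPolynomial (Option (Fin m)) ℝ :=
  ∑ o, pderiv o f * e o

theorem vf_eval (e : Option (Fin m) → MvPolynomial (Option (Fin m)) ℝ)
    (f : MvPolynomial (Option (Fin m)) ℝ) (x : Option (Fin m) → ℝ) :
    eval x (vf e f) = dd f x (fun o => eval x (e o)) := by
  unfold vf dd
  rw [map_sum]
  exact Finset.sum_congr rfl fun o _ => by rw [map_mul]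

theorem vf_add (e : Option (Fin m) → MvPolynomial (Option (Fin m)) ℝ)
    (f g : MvPolynomial (Option (Fin m)) ℝ) : vf e (f + g) = vf e f + vf e g := by
  unfold vf
  rw [← Finset.sum_add_distrib]
  exact Finset.sum_congr rfl fun o _ => by rw [map_add, add_mul]

theorem vf_sub (e : Option (Fin m) → MvPolynomial (Option (Fin m)) ℝ)
    (f g : MvPolynomial (Option (Fin m)) ℝ) : vf e (f - g) = vf e f - vf e g := by
  unfold vf
  rw [← Finset.sum_sub_distrib]
  exact Finset.sum_congr rfl fun o _ => by rw [map_sub, sub_mul]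

theorem vf_mul (e : Option (Fin m) → MvPolynomial (Option (Fin m)) ℝ)
    (f g : MvPolynomial (Option (Fin m)) ℝ) : vf e (f * g) = vf e f * g + f * vf e g := by
  unfold vf
  rw [Finset.sum_mul, Finset.mul_sum, ← Finset.sum_add_distrib]
  refine Finset.sum_congr rfl fun o _ => ?_
  rw [pderiv_mul]
  ring

theorem vf_sum {ι : Type} (s : Finset ι) (e : Option (Fin m) → MvPolynomial (Option (Fin m)) ℝ)
    (f : ι → MvPolynomial (Option (Fin m)) ℝ) : vf e (∑ i ∈ s, f i) = ∑ i ∈ s, vf e (f i) := by
  unfold vf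
  rw [Finset.sum_comm]
  refine Finset.sum_congr rfl fun o _ => ?_
  rw [map_sum, Finset.sum_mul]

/-- The derivative along a field, of a derivative. -/
theorem vf_vf (e e' : Option (Fin m) → MvPolynomial (Option (Fin m)) ℝ)
    (f : MvPolynomial (Option (Fin m)) ℝ) :
    vf e (vf e' f) = (∑ o, ∑ o', pderiv o' (pderiv o f) * e o' * e' o) +
      ∑ o, pderiv o f * vf e (e' o) := by
  have h1 : vf e (vf e' f) = ∑ o, vf e (pderiv o f * e' o) := by
    rw [← vf_sum]
    rfl
  rw [h1, ← Finset.sum_add_distrib]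
  refine Finset.sum_congr rfl fun o _ => ?_
  rw [vf_mul]
  congr 1
  unfold vf
  rw [Finset.sum_mul]

/-- **The bracket.** -/
theorem vf_brk (e e' : Option (Fin m) → MvPolynomial (Option (Fin m)) ℝ)
    (f : MvPolynomial (Option (Fin m)) ℝ) :
    vf e (vf e' f) - vf e' (vf e f) = ∑ o, pderiv o f * (vf e (e' o) - vf e' (e o)) := by
  rw [vf_vf, vf_vf]
  have h1 : (∑ o, ∑ o', pderiv o' (pderiv o f) * e o' * e' o) =
      ∑ o, ∑ o', pderiv o' (pderiv o f) * e' o' * e o := by
    rw [Finset.sum_comm]
    refine Finset.sum_congr rfl fun o _ => Finset.sum_congr rfl fun o' _ => ?_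
    rw [pd_comm]
    ring
  have h2 : ∑ o, pderiv o f * (vf e (e' o) - vf e' (e o)) =
      ∑ o, pderiv o f * vf e (e' o) - ∑ o, pderiv o f * vf e' (e o) := by
    rw [← Finset.sum_sub_distrib]
    exact Finset.sum_congr rfl fun o _ => by ring
  rw [h1, h2]
  ring

/-- **The identity.** -/
theorem hol_alg (e e' : Option (Fin m) → MvPolynomial (Option (Fin m)) ℝ) (u : Option (Fin m))
    (hb : ∀ o, o ≠ u → vf e (e' o) = vf e' (e o)) (Γ μ μ' : MvPolynomial (Option (Fin m)) ℝ) :
    vf e (vf e' Γ - μ') - vf e' (vf e Γ - μ) =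
      pderiv u Γ * (vf e (e' u) - vf e' (e u)) - (vf e μ' - vf e' μ) := by
  classical
  rw [vf_sub, vf_sub]
  have h1 := vf_brk e e' Γ
  have h2 : ∑ o, pderiv o Γ * (vf e (e' o) - vf e' (e o)) =
      pderiv u Γ * (vf e (e' u) - vf e' (e u)) :=
    Finset.sum_eq_single u (fun o _ ho => by rw [hb o ho, sub_self, mul_zero])
      fun h => absurd (Finset.mem_univ u) h
  rw [h2] at h1
  linear_combination h1

end Pool.HOL95
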